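import Mathlib

set_option autoImplicit false

open Set Filter MeasureTheory ProbabilityTheory
open scoped Topology ENNReal symmDiff

namespace Pool.Agent.Results.MP_0638d8_an.Counter

/-- The `m`-point diameter `ρ_m(A)`. -/
noncomputable def rhoN {S : Type} [MetricSpace S] (m : ℕ) (A : Set S) : ℝ≥0∞ :=
  ⨆ (p : Fin m → S) (_ : ∀ i, p i ∈ A), ∏ q ∈ Finset.univ.filter fun q : Fin m × Fin m => q.1 < q.2,
    edist (p q.1) (p q.2) ^ (2 / (m * (m - 1)) : ℝ)

/-- The transfinite diameter. -/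
noncomputable def rho {S : Type} [MetricSpace S] (A : Set S) : ℝ≥0∞ := ⨅ m ≥ 2, rhoN m A

/-- The essential transfinite diameter. -/
noncomputable def essRho {S : Type} [MetricSpace S] [MeasurableSpace S] (P : Measure S)
    (A : Set S) : ℝ≥0∞ := ⨅ (B : Set S) (_ : B ⊆ A ∧ MeasurableSet B ∧ P B = P A), rho B

/-- Mixing maps. -/
def Mixing {S : Type} [MeasurableSpace S] (P : Measure S) (ψ : S → S) : Prop :=
  MeasurePreserving ψ P P ∧ ∀ A B, MeasurableSet A → MeasurableSet B →
    Tendsto (fun n => P.real (ψ^[n] ⁻¹' A ∩ B)) atTop (𝓝 (P.real A * P.real B))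

def sh (x : ℕ → ℕ) (i : ℕ) : ℕ := x (i + 1)

lemma sh_iter (n : ℕ) : sh^[n] = fun x i => x (i + n) := by
  induction n with
  | zero => rfl
  | succ n ih =>
    rw [Function.iterate_succ, ih]
    rfl

lemma meas (T : Set ℕ) {ι : Type} (g : ι → ℕ) (hg : ∀ i, g i ∈ T) :
    Measurable[⨆ i ∈ T, MeasurableSpace.comap (fun x : ℕ → ℕ => x i) inferInstance]
      fun (x : ℕ → ℕ) (i : ι) => x (g i) := by
  refine @measurable_pi_lambda _ _ _ (_) _ _ fun i => ?_
  exact (comap_measurable fun x : ℕ → ℕ => x (g i)).mono (le_iSup₂_of_le (g i) (hg i) le_rfl) le_rfl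

lemma mixing (μ : Measure ℕ) [IsProbabilityMeasure μ] :
    Mixing (Measure.infinitePi fun _ : ℕ => μ) sh := by
  set P := Measure.infinitePi fun _ : ℕ => μ with hP
  have mp : MeasurePreserving sh P P := ⟨by unfold sh; fun_prop,
    Measure.map_infinitePi_infinitePi_of_inj (P := fun _ : ℕ => μ) Nat.succ_injective⟩
  refine ⟨mp, fun A B hA hB => Metric.tendsto_atTop.2 fun ε hε => ?_⟩
  obtain ⟨C, hC, hBC⟩ := (Measure.MeasureDense.of_generateFrom_isSetAlgebra_finite P
    ⟨empty_mem_measurableCylinders _, fun _ => compl_mem_measurableCylinders,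
      fun _ _ => union_mem_measurableCylinders⟩ generateFrom_measurableCylinders.symm).approx B hB
    (measure_ne_top _ _) (ε / 2) (by linarith)
  have mC := MeasurableSet.of_mem_measurableCylinders hC
  obtain ⟨s, D, hD, rfl⟩ := (mem_measurableCylinders _).1 hC
  refine ⟨s.sup id + 1, fun n hn => ?_⟩
  have ind := indep_iSup_of_disjoint (fun i => (measurable_pi_apply i).comap_le)
    (iIndepFun_infinitePi (P := fun _ : ℕ => μ) (X := fun _ x => x) fun _ => measurable_id).iIndep
    (S := Ici n) (T := Iio n) (disjoint_left.2 fun a h1 h2 => not_lt.2 (mem_Ici.1 h1) (mem_Iio.1 h2))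
  have e := (Indep_iff _ _ _).1 ind (sh^[n] ⁻¹' A) (cylinder s D)
    (by rw [sh_iter]; exact meas (Ici n) (· + n) (fun i => Nat.le_add_left n i) hA)
    (meas (Iio n) (fun i : s => (i : ℕ)) (fun i => lt_of_lt_of_le
      (Nat.lt_succ_of_le (Finset.le_sup (f := id) i.2)) hn) hD)
  rw [(mp.iterate n).measure_preimage hA.nullMeasurableSet] at e
  have e2 : P.real (sh^[n] ⁻¹' A ∩ cylinder s D) = P.real A * P.real (cylinder s D) := by
    rw [measureReal_def, e, ENNReal.toReal_mul]
    rfl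
  have mX := (mp.iterate n).measurable hA
  have h1 := abs_measureReal_sub_le_measureReal_symmDiff (μ := P) (mX.inter hB).nullMeasurableSet
    (mX.inter mC).nullMeasurableSet
  have h2 := abs_measureReal_sub_le_measureReal_symmDiff (μ := P) hB.nullMeasurableSet
    mC.nullMeasurableSet
  rw [← inter_symmDiff_distrib_left, e2] at h1
  have h3 : P.real (sh^[n] ⁻¹' A ∩ B ∆ cylinder s D) ≤ P.real (B ∆ cylinder s D) :=
    measureReal_mono inter_subset_right
  have h4 : P.real (B ∆ cylinder s D) < ε / 2 := ENNReal.toReal_lt_of_lt_ofReal hBC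
  have h5 : |P.real A * (P.real B - P.real (cylinder s D))| ≤ P.real (B ∆ cylinder s D) := by
    rw [abs_mul, abs_of_nonneg measureReal_nonneg]
    exact (mul_le_of_le_one_left (abs_nonneg _) measureReal_le_one).trans h2
  rw [Real.dist_eq, abs_lt]
  rw [abs_le] at h1 h5
  constructor <;> linarith [h1.1, h1.2, h5.1, h5.2]

open Classical in
noncomputable def d (w : ℕ → ℕ) (x y : ℕ → ℕ) : ℝ :=
  if x = y then 0 else Real.exp (-w (PiNat.firstDiff x y))

lemma d_nonneg (w : ℕ → ℕ) (x y : ℕ → ℕ) : 0 ≤ d w x y := by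
  unfold d
  split_ifs <;> positivity

lemma d_le (w : ℕ → ℕ) (hw : Monotone w) (x y : ℕ → ℕ) (N : ℕ) (h : x ∈ PiNat.cylinder y N) :
    d w x y ≤ Real.exp (-w N) := by
  unfold d
  split_ifs with hxy
  · positivity
  · have := hw ((PiNat.mem_cylinder_iff_le_firstDiff hxy N).1 h)
    gcongr

@[reducible] noncomputable def ms (w : ℕ → ℕ) (hw : Monotone w) : MetricSpace (ℕ → ℕ) where
  dist := d w
  dist_self x := by simp [d]
  dist_comm x y := by
    by_cases h : x = y
    · rw [h]
    · simp only [d, if_neg h, if_neg (Ne.symm h), PiNat.firstDiff_comm]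
  eq_of_dist_eq_zero {x y} h := by
    by_contra hh
    simp [d, hh] at h
  dist_triangle x y z := by
    by_cases hxy : x = y
    · subst hxy
      linarith [d_nonneg w x x]
    by_cases hyz : y = z
    · subst hyz
      linarith [d_nonneg w y y]
    rcases le_total (PiNat.firstDiff x y) (PiNat.firstDiff y z) with h | h
    · have := d_le w hw x z (PiNat.firstDiff x y) fun i hi =>
        (PiNat.apply_eq_of_lt_firstDiff hi).trans (PiNat.apply_eq_of_lt_firstDiff (hi.trans_le h))
      have h2 : d w x y = Real.exp (-w (PiNat.firstDiff x y)) := if_neg hxy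
      linarith [d_nonneg w y z]
    · have := d_le w hw x z (PiNat.firstDiff y z) fun i hi =>
        (PiNat.apply_eq_of_lt_firstDiff (hi.trans_le h)).trans (PiNat.apply_eq_of_lt_firstDiff hi)
      have h2 : d w y z = Real.exp (-w (PiNat.firstDiff y z)) := if_neg hyz
      linarith [d_nonneg w x y]

lemma rho_zero (k w : ℕ → ℕ) (hk : StrictMono k) (hw : Monotone w)
    (hkw : ∀ N, w N = N * (k (2 * N) ^ N + 1) ^ 2) (n : ℕ) (B : Set (ℕ → ℕ))
    (hB : ∀ x ∈ B, ∀ j, x j < k (j + n)) : @rho _ (ms w hw) B = 0 := by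
  letI := ms w hw
  have t : Tendsto (fun N : ℕ => ENNReal.ofReal (Real.exp (-N))) atTop (𝓝 0) := by
    simpa using ENNReal.tendsto_ofReal
      (Real.tendsto_exp_neg_atTop_nhds_zero.comp tendsto_natCast_atTop_atTop)
  refine le_zero_iff.1 (ge_of_tendsto t (eventually_atTop.2 ⟨n + 1, fun N hN => ?_⟩))
  have k1 : 1 ≤ k (2 * N) ^ N := Nat.one_le_pow _ _ (lt_of_lt_of_le (by omega) hk.le_apply)
  refine (iInf₂_le (k (2 * N) ^ N + 1) (by omega)).trans (iSup₂_le fun p hp => ?_)
  obtain ⟨i, j, hij, he⟩ : ∃ i j, i < j ∧ p i ∈ PiNat.cylinder (p j) N := by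
    obtain ⟨i, j, hij, he⟩ := Fintype.exists_ne_map_eq_of_card_lt
      (fun i (l : Fin N) => (⟨p i l, (hB _ (hp i) l).trans_le (hk.monotone (by omega))⟩ :
        Fin (k (2 * N)))) (by simp)
    have he' : ∀ l < N, p i l = p j l := fun l hl => congrArg Fin.val (congrFun he ⟨l, hl⟩)
    rcases hij.lt_or_gt with h | h
    · exact ⟨i, j, h, he'⟩
    · exact ⟨j, i, h, fun l hl => (he' l hl).symm⟩
  have hwN := hkw N
  generalize k (2 * N) ^ N = b at *
  have b1 : (1 : ℝ) ≤ b := by exact_mod_cast k1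
  have e0 : (0 : ℝ) ≤ 2 / ((b + 1 : ℕ) * ((b + 1 : ℕ) - 1)) := by push_cast; simp; positivity
  refine (Finset.prod_le_prod_of_subset_of_le_one' (s := {(i, j)}) (by simpa using hij)
    fun q _ _ => ENNReal.rpow_le_one ?_ e0).trans ?_
  · rw [edist_dist, ENNReal.ofReal_le_one]
    exact (d_le w hw _ _ 0 (by simp)).trans (Real.exp_le_one_iff.2 (by simp))
  rw [Finset.prod_singleton, edist_dist, ENNReal.ofReal_rpow_of_nonneg dist_nonneg e0]
  refine ENNReal.ofReal_le_ofReal ((Real.rpow_le_rpow dist_nonneg (d_le w hw _ _ N he) e0).trans ?_)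
  rw [← Real.exp_mul, Real.exp_le_exp, hwN]
  push_cast
  rw [add_sub_cancel_right, ← mul_div_assoc, div_le_iff₀ (by positivity)]
  have : (0 : ℝ) ≤ N := Nat.cast_nonneg N
  nlinarith [mul_nonneg this (by positivity : (0 : ℝ) ≤ (b + 1) * (b + 2))]

theorem result : ∃ (S : Type) (_ : MetricSpace S) (_ : MeasurableSpace S) (P : Measure S)
    (ψ : S → S) (A : Set S), IsProbabilityMeasure P ∧
    (∀ (x : S) (r : ℝ), 0 < r → MeasurableSet (Metric.ball x r) ∧ 0 < P (Metric.ball x r)) ∧
    Mixing P ψ ∧ (∀ B, MeasurableSet B → MeasurableSet (ψ '' B)) ∧ MeasurableSet A ∧ 0 < P A ∧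
    0 < rho (univ : Set S) ∧ ∀ n, rho (ψ^[n] '' A) = 0 ∧ essRho P (ψ^[n] '' A) = 0 := by
  set μ := geometricMeasure ⟨1 / 2, by norm_num, by norm_num⟩ with hμ
  have μ0 : ∀ a, μ {a} ≠ 0 := fun a => by
    rw [hμ, geometricMeasure_singleton (by norm_num [Subtype.ext_iff])]
    norm_num
  obtain ⟨ε, hε, hε1⟩ := ENNReal.exists_pos_sum_of_countable one_ne_zero ℕ
  have t := tendsto_measure_iInter_atTop (μ := μ) (s := fun n : ℕ => Ici n)
    (fun _ => measurableSet_Ici.nullMeasurableSet) antitone_Ici ⟨0, measure_ne_top _ _⟩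
  rw [show ⋂ n : ℕ, Ici n = ∅ from eq_empty_of_forall_notMem fun a ha =>
    absurd (mem_iInter.1 ha (a + 1)) (by simp), measure_empty] at t
  obtain ⟨k, hk, hkε⟩ := extraction_forall_of_eventually (P := fun j n => μ (Ici n) < ε j)
    fun j => t.eventually (gt_mem_nhds (by simpa using hε j))
  set w : ℕ → ℕ := fun N => N * (k (2 * N) ^ N + 1) ^ 2 with hw
  have wm : Monotone w := monotone_nat_of_le_succ fun N => by
    have h1 : k (2 * N) ≤ k (2 * (N + 1)) := hk.monotone (by omega)
    have h2 : 1 ≤ k (2 * (N + 1)) := le_trans (by omega) hk.le_apply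
    have h3 : k (2 * N) ^ N ≤ k (2 * (N + 1)) ^ (N + 1) :=
      (Nat.pow_le_pow_left h1 N).trans (Nat.pow_le_pow_right h2 (by omega))
    simp only [hw]
    gcongr
    omega
  have im : ∀ B, MeasurableSet B → MeasurableSet (sh '' B) := by
    intro B hB
    have : sh '' B = ⋃ a : ℕ, (fun (x : ℕ → ℕ) (i : ℕ) => (Nat.casesOn i a x : ℕ)) ⁻¹' B := by
      ext x
      simp only [mem_image, mem_iUnion, mem_preimage]
      refine ⟨?_, fun ⟨a, ha⟩ => ⟨_, ha, rfl⟩⟩
      rintro ⟨y, hy, rfl⟩
      exact ⟨y 0, by convert hy using 1; ext i; cases i <;> rfl⟩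
    rw [this]
    refine MeasurableSet.iUnion fun a => measurable_pi_lambda _ (fun i => ?_) hB
    cases i
    · exact measurable_const
    · exact measurable_pi_apply _
  have mA : MeasurableSet {x : ℕ → ℕ | ∀ j, x j < k j} := by
    rw [setOf_forall]
    exact MeasurableSet.iInter fun j => measurable_pi_apply j measurableSet_Iio
  letI := ms w wm
  refine ⟨ℕ → ℕ, ms w wm, inferInstance, Measure.infinitePi fun _ : ℕ => μ, sh,
    {x | ∀ j, x j < k j}, inferInstance, fun x r hr => ?_, mixing μ, im, mA, ?_, ?_, fun n => ?_⟩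
  · have ex : ∃ N, Real.exp (-w N) < r := by
      obtain ⟨N, hN⟩ := ((Real.tendsto_exp_neg_atTop_nhds_zero.comp
        tendsto_natCast_atTop_atTop).eventually (gt_mem_nhds hr)).exists
      refine ⟨N, lt_of_le_of_lt ?_ hN⟩
      have : N ≤ w N := Nat.le_mul_of_pos_right _ (by positivity)
      simp only [Function.comp]
      gcongr
    have e : Metric.ball x r = Set.pi (Finset.range (Nat.find ex)) fun i => {x i} := by
      rw [← PiNat.cylinder_eq_pi]
      ext y
      refine ⟨fun h => ?_, fun h => (d_le w wm y x _ h).trans_lt (Nat.find_spec ex)⟩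
      by_cases hyx : y = x
      · exact hyx ▸ PiNat.self_mem_cylinder _ _
      · refine (PiNat.mem_cylinder_iff_le_firstDiff hyx _).2 (Nat.find_le ?_)
        rwa [Metric.mem_ball, show dist y x = _ from if_neg hyx] at h
    rw [e, Measure.infinitePi_pi _ fun _ _ => measurableSet_singleton _]
    exact ⟨MeasurableSet.pi (Finset.countable_toSet _) fun _ _ => measurableSet_singleton _,
      pos_iff_ne_zero.2 (Finset.prod_ne_zero_iff.2 fun i _ => μ0 _)⟩
  · refine pos_iff_ne_zero.2 fun h => ?_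
    rw [← prob_compl_eq_one_iff mA, setOf_forall, compl_iInter] at h
    refine (((measure_iUnion_le _).trans (ENNReal.tsum_le_tsum fun j => ?_)).trans_lt hε1).ne h
    refine le_trans (le_of_eq ?_) (hkε j).le
    rw [← (measurePreserving_eval_infinitePi (fun _ : ℕ => μ) j).measure_preimage
      measurableSet_Ici.nullMeasurableSet]
    congr 1
    ext x
    simp
  · refine zero_lt_one.trans_le (le_iInf₂ fun m _ => le_iSup₂_of_le (fun i _ => i)
      (fun _ => mem_univ _) (le_of_eq (Finset.prod_eq_one fun q hq => ?_).symm))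
    have h1 : (q.1 : ℕ) ≠ q.2 := (Fin.lt_def.1 (Finset.mem_filter.1 hq).2).ne
    have h2 : (fun _ : ℕ => (q.1 : ℕ)) ≠ fun _ => (q.2 : ℕ) := fun h => h1 (congrFun h 0)
    have h3 : PiNat.firstDiff (fun _ : ℕ => (q.1 : ℕ)) (fun _ => (q.2 : ℕ)) = 0 := by
      by_contra h
      exact h1 (PiNat.apply_eq_of_lt_firstDiff (Nat.pos_of_ne_zero h))
    rw [edist_dist, show dist (fun _ : ℕ => (q.1 : ℕ)) (fun _ => (q.2 : ℕ)) = _ from if_neg h2, h3]
    simp [hw]
  · have h0 := rho_zero k w hk wm (fun _ => rfl) n (sh^[n] '' {x | ∀ j, x j < k j}) (by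
      rintro _ ⟨x, hx, rfl⟩ j
      rw [sh_iter]
      exact hx _)
    refine ⟨h0, le_zero_iff.1 ((iInf₂_le _ ⟨subset_rfl, ?_, rfl⟩).trans h0.le)⟩
    clear h0
    induction n with
    | zero => simpa using mA
    | succ n ih =>
      rw [Function.iterate_succ', image_comp]
      exact im _ ih

end Pool.Agent.Results.MP_0638d8_an.Counter
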